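import Pool.Agent.Helper83.BD.GA2

/-!
# Module GN1: dropping the unused darts of a clean drawing
-/

noncomputable section

open Finset Helper5.CR Classical Equiv Equiv.Perm

namespace Helper5.BD

variable {V E : Type} [Fintype E] {src tgt : E → V}

section GN1

/-- walks in a part of a map -/
private theorem walk_sub {D X : Type} {pt : D → X} {α : Perm D} {U : D → Prop}
    {α' : Perm {d : D // U d}} (hα : ∀ d, (α' d).1 = α d.1) (l : List {d : D // U d}) :
    ∀ x y : X, IsWalk pt α x y (l.map Subtype.val) → IsWalk (fun d => pt d.1) α' x y l := by
  induction l with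
  | nil => exact fun x y h => h
  | cons d l ih =>
    intro x y h
    refine ⟨h.1, ih _ _ ?_⟩
    have h2 := h.2
    rw [← hα d] at h2
    exact h2

private theorem count_sub {D : Type} {U : D → Prop} (i1 : DecidableEq D)
    (i2 : DecidableEq {d : D // U d}) (l : List {d : D // U d}) (d : {d : D // U d}) :
    @List.count _ (@instBEqOfDecidableEq _ i2) d l =
      @List.count _ (@instBEqOfDecidableEq _ i1) d.1 (l.map Subtype.val) :=
  (@List.count_map_of_injective _ _ (@instBEqOfDecidableEq _ i2) _ (@instBEqOfDecidableEq _ i1) _
    l Subtype.val Subtype.val_injective d).symm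

/-- GN1.  Proof: the darts in use are closed under `σ` (`Clean`, `pt_iff`) and `α`; `planar_subtype`
with `U = P.Used`; same points, same routes. -/
theorem exists_drop (P : PreDrawing src tgt) (hP : P.Clean) :
    ∃ P' : PreDrawing src tgt, (∀ d, P'.Used d) ∧ ∃ j : P.X → P'.X, Function.Injective j ∧
      ∀ e, ipts P' e = (ipts P e).map j := by
  have hσ : ∀ d, P.Used (P.σ d) ↔ P.Used d := by
    intro d
    have h : P.pt d = P.pt (P.σ d) := (P.pt_iff _ _).2 ⟨1, by simp⟩
    exact ⟨fun hd => hP _ _ h.symm hd, fun hd => hP _ _ h hd⟩
  have hα : ∀ d, P.Used (P.α d) ↔ P.Used d := by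
    intro d
    unfold PreDrawing.Used
    rw [P.α_invol]
    exact exists_congr fun e => or_comm
  obtain ⟨σ', α', hpl, h1, h2⟩ := planar_subtype P.planar P.Used hσ hα
  have hσ' : σ' = P.σ.subtypePerm hσ := by
    ext d
    rw [h1]
    rfl
  -- the routes
  let r : E → List {d : P.D // P.Used d} := fun e =>
    (P.route e).attach.map fun d => ⟨d.1, ⟨e, Or.inl d.2⟩⟩
  have hr : ∀ e, (r e).map Subtype.val = P.route e := by
    intro e
    simp only [r, List.map_map]
    exact List.attach_map_subtype_val _
  have hmem : ∀ e (d : {d : P.D // P.Used d}), d ∈ r e ↔ d.1 ∈ P.route e := by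
    intro e d
    rw [← hr e]
    constructor
    · exact fun h => List.mem_map.2 ⟨d, h, rfl⟩
    · intro h
      obtain ⟨d', h', hd⟩ := List.mem_map.1 h
      rwa [Subtype.val_injective hd] at h'
  let P' : PreDrawing src tgt :=
    { D := {d : P.D // P.Used d}
      X := P.X
      finD := Fintype.ofFinite _
      finX := P.finX
      σ := σ'
      α := α'
      α_invol := by
        intro d
        apply Subtype.val_injective
        rw [h2, h2, P.α_invol]
      α_ne := by
        intro d h
        apply P.α_ne d.1
        rw [← h2, h]
      planar := hpl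
      pt := fun d => P.pt d.1
      pt_iff := by
        intro d d'
        rw [P.pt_iff, hσ', sameCycle_subtypePerm]
      loc := P.loc
      loc_inj := P.loc_inj
      route := r
      route_walk := by
        intro e
        refine walk_sub (pt := P.pt) (α := P.α) h2 _ _ _ ?_
        rw [hr]
        exact P.route_walk e
      route_inner := by
        intro e d hd v
        refine P.route_inner e d.1 ?_ v
        rw [← hr e, ← List.map_tail]
        exact List.mem_map.2 ⟨d, hd, rfl⟩
      route_use := by
        intro d
        have h := P.route_use d.1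
        refine le_trans (le_of_eq ?_) h
        refine Finset.sum_congr rfl fun e _ => ?_
        have k1 := count_sub (fun a b => Classical.propDecidable (a = b))
          (fun a b => Classical.propDecidable (a = b)) (r e) d
        have k2 := count_sub (fun a b => Classical.propDecidable (a = b))
          (fun a b => Classical.propDecidable (a = b)) (r e) (α' d)
        rw [hr] at k1 k2
        rw [h2] at k2
        exact congrArg₂ (· + ·) k1 k2 }
  refine ⟨P', ?_, id, Function.injective_id, ?_⟩
  · intro d
    obtain ⟨e, he⟩ := d.2
    refine ⟨e, ?_⟩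
    rcases he with he | he
    · exact Or.inl ((hmem e d).2 he)
    · right
      refine (hmem e _).2 ?_
      rw [h2]
      exact he
  · intro e
    show ((r e).tail.map fun d => P.pt d.1) = ((P.route e).tail.map P.pt).map id
    have h3 : ∀ l : List {d : P.D // P.Used d},
        l.tail.map (fun d => P.pt d.1) = (l.map Subtype.val).tail.map P.pt := by
      intro l
      rw [← List.map_tail, List.map_map]
      rfl
    rw [List.map_id, h3, hr]

end GN1

end Helper5.BD
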